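import Pool.Agent.Helper18.FM.GoalsA
import Pool.Agent.Helper82.HB.SLG

/-! # FM FLG: the differential inequalities with the trace bound -/

open Complex Metric Set Filter Topology MeasureTheory
open scoped ContDiff ComplexConjugate ComplexOrder Manifold Matrix

namespace Pool.Agent.Helper52.FM.FLG

open Pool.Agent.Helper95.Lin Pool.Agent.Helper16.Abund Pool.Agent.Helper92.Orb
  Pool.Agent.Helper10.SP Pool.Agent.Helper95.RK Pool.Agent.Helper57.HS
  Pool.Agent.Helper15.HS Pool.Agent.Helper15.GS Pool.Agent.Helper57.RBC Pool.Agent.Helper82.HB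
  Pool.Agent.Helper18.FM

universe u

/-- The inequality for the logarithm at a point. -/
theorem log_core (hFCL : S_FCL.{u}) (hCHN : Pool.Agent.Helper95.HS.S_CHN) {n m : ℕ}
    {T : Set (Cn n)} {G : Type u} [Group G] {R : G → Cn n → Cn n → Prop}
    {σ : Cn n → Matrix (Fin n) (Fin m) ℂ} {h : Cn n → Matrix (Fin m) (Fin m) ℂ}
    (hS : SF T R σ h) {Q : Cn n → Matrix (Fin n) (Fin n) ℂ} (hQ : KEt T R Q) {x : Cn n}
    (hx : x ∈ T) (hL : - tS σ h Q x + AAs σ h Q x ≤ (trL Q (tS σ h Q) x).re) {δ : ℝ}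
    (hδ : 0 < δ) : -1 ≤ (trL Q (fun y => Real.log (tS σ h Q y + δ)) x).re := by
  have hT := hQ.et.isOpen
  obtain ⟨-, hInv, -, -, -, hpt⟩ := hFCL T R σ h hS Q (fun y => Q y - rho Q y) hQ
    (fun y _ => by abel)
  have ht0 : ∀ y ∈ T, 0 ≤ tS σ h Q y := fun y hy => (hpt y hy).2.1
  obtain ⟨-, q2, q3, -, -, -, q8⟩ := hpt x hx
  have hJ : MapsTo (tS σ h Q) T (Ioi (-δ)) := fun y hy => by
    have := ht0 y hy
    show -δ < tS σ h Q y
    linarith
  have hFs : ContDiffOn ℝ ∞ (fun r : ℝ => Real.log (r + δ)) (Ioi (-δ)) := by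
    apply ContDiffOn.log
    · exact (contDiff_id.add contDiff_const).contDiffOn
    · intro r hr
      have : -δ < r := hr
      have : (0 : ℝ) < r + δ := by linarith
      exact this.ne'
  obtain ⟨-, hch⟩ := hCHN T hT (tS σ h Q) (fun r => Real.log (r + δ)) (Ioi (-δ)) hInv.1
    isOpen_Ioi hFs hJ
  obtain ⟨-, hch2⟩ := hch x hx
  set t : ℝ := tS σ h Q x with ht
  have hsp : 0 < t + δ := by linarith
  have hd1 : deriv (fun r : ℝ => Real.log (r + δ)) t = (t + δ)⁻¹ := by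
    rw [deriv_logadd]
  have hd2 := deriv2_logadd (δ := δ) (s := t) hsp
  have hlog : trL Q (fun y => Real.log (tS σ h Q y + δ)) x =
      (((t + δ)⁻¹ : ℝ) : ℂ) * trL Q (tS σ h Q) x -
      ((((t + δ) ^ 2)⁻¹ : ℝ) : ℂ) * ∑ k, ∑ l, (Q x)⁻¹ l k *
        (cd k (fun y => ((tS σ h Q y : ℝ) : ℂ)) x *
          conj (cd l (fun y => ((tS σ h Q y : ℝ) : ℂ)) x)) := by
    have e1 : ∀ u : Cn n → ℝ, trL Q u x = ∑ k, ∑ l, (Q x)⁻¹ l k * LM u x k l := by
      intro u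
      unfold trL
      rw [Finset.sum_comm]
      simp only [Matrix.trace, Matrix.diag, Matrix.mul_apply]
    rw [e1, e1, Finset.mul_sum, Finset.mul_sum, ← Finset.sum_sub_distrib]
    refine Finset.sum_congr rfl fun k _ => ?_
    rw [Finset.mul_sum, Finset.mul_sum, ← Finset.sum_sub_distrib]
    refine Finset.sum_congr rfl fun l _ => ?_
    rw [hch2 k l, hd1, hd2]
    push_cast
    ring
  have hfin : (trL Q (fun y => Real.log (tS σ h Q y + δ)) x).re =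
      (t + δ)⁻¹ * (trL Q (tS σ h Q) x).re -
      ((t + δ) ^ 2)⁻¹ * (∑ k, ∑ l, (Q x)⁻¹ l k * (cd k (fun y => ((tS σ h Q y : ℝ) : ℂ)) x *
          conj (cd l (fun y => ((tS σ h Q y : ℝ) : ℂ)) x))).re := by
    rw [hlog, Complex.sub_re, Complex.re_ofReal_mul, Complex.re_ofReal_mul]
  rw [hfin]
  have b1 : (t + δ)⁻¹ * (- t + AAs σ h Q x) ≤ (t + δ)⁻¹ * (trL Q (tS σ h Q) x).re :=
    mul_le_mul_of_nonneg_left hL (by positivity)
  have b2 := mul_le_mul_of_nonneg_left q8 (show 0 ≤ ((t + δ) ^ 2)⁻¹ by positivity)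
  have b3 : (t + δ)⁻¹ * (- t + AAs σ h Q x) - ((t + δ) ^ 2)⁻¹ * (t * AAs σ h Q x) + 1 =
      δ * (t + δ + AAs σ h Q x) * ((t + δ) ^ 2)⁻¹ := by
    field_simp
    ring
  have b4 : 0 ≤ δ * (t + δ + AAs σ h Q x) * ((t + δ) ^ 2)⁻¹ := by
    have : 0 ≤ t + δ + AAs σ h Q x := by linarith
    positivity
  linarith

theorem t (hFCL : S_FCL.{u}) (hCHN : Pool.Agent.Helper95.HS.S_CHN) : S_FLG.{u} := by
  intro n m T G _ R σ h χ hS hTR Q η hQ hη hrho
  have hT := hQ.et.isOpen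
  obtain ⟨-, hInv, -, -, -, hpt⟩ := hFCL T R σ h hS Q η hQ hrho
  have hL : ∀ x ∈ T, - tS σ h Q x + AAs σ h Q x ≤ (trL Q (tS σ h Q) x).re := by
    intro x hx
    obtain ⟨q1, -, -, -, -, q7, -⟩ := hpt x hx
    have h1 := eta_term q1 (hQ.posDef x hx).inv.isHermitian (hη x hx)
    rw [Matrix.sub_mul, Matrix.sub_mul, Matrix.sub_mul, Matrix.trace_sub, Complex.sub_re] at h1
    have h2 : 0 ≤ NKs σ h Q x + (Matrix.trace (χ x * (Q x)⁻¹ * gS σ h x * (Q x)⁻¹)).re :=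
      hTR x hx (Q x)⁻¹ (hQ.posDef x hx).inv.posSemidef
    rw [q7]
    linarith
  refine ⟨fun x hx => ?_, fun δ hδ => ⟨⟨hInv.1.add contDiffOn_const, fun γ x y hR => ?_⟩,
    fun x hx => log_core hFCL hCHN hS hQ hx (hL x hx) hδ⟩⟩
  · have h1 := hL x hx
    have h2 := (hpt x hx).2.2.1
    linarith
  · show tS σ h Q y + δ = tS σ h Q x + δ
    rw [hInv.2 γ x y hR]

end Pool.Agent.Helper52.FM.FLG
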